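import Mathlib

/-!
# Heavy pairs in 3-graphs without a complete 3-graph on five vertices: the inequality

`α a b ∈ {0, 1}` is the indicator of the heavy pairs, `β a b c ∈ {0, 1}` the indicator of the
non-edges.
-/

set_option autoImplicit false
open Finset

namespace Pool.Agent.V11262.FC

variable {V : Type} [Fintype V]

/-- the data -/
structure Data (V : Type) [Fintype V] (ε : ℝ) where
  α : V → V → ℝ
  β : V → V → V → ℝ
  α01 : ∀ a b, α a b = 0 ∨ α a b = 1
  β01 : ∀ a b c, β a b c = 0 ∨ β a b c = 1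
  αs : ∀ a b, α a b = α b a
  β1 : ∀ a b c, β a b c = β b a c
  β2 : ∀ a b c, β a b c = β a c b
  heavy : ∀ a b, α a b = 1 → ∑ c, β a b c ≤ ε * (Fintype.card V : ℝ)
  five : ∀ a b c d e, β a b c = 0 → α a b = 1 → α a c = 1 → α b c = 1 → α d e = 1 →
    1 ≤ β a b d + β a c d + β b c d + β a b e + β a c e + β b c e + β a d e + β b d e + β c d e

namespace Data

variable {ε : ℝ} (D : Data V ε)

theorem α_nonneg (a b : V) : 0 ≤ D.α a b := by rcases D.α01 a b with h | h <;> rw [h] <;> norm_num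
theorem α_le (a b : V) : D.α a b ≤ 1 := by rcases D.α01 a b with h | h <;> rw [h]; norm_num
theorem β_nonneg (a b c : V) : 0 ≤ D.β a b c := by
  rcases D.β01 a b c with h | h <;> rw [h] <;> norm_num
theorem β_le (a b c : V) : D.β a b c ≤ 1 := by rcases D.β01 a b c with h | h <;> rw [h]; norm_num

/-- number of the heavy ordered pairs -/
noncomputable def g : ℝ := ∑ a, ∑ b, D.α a b
/-- the loss -/
noncomputable def b : ℝ := ∑ a, ∑ b, ∑ c, D.α a b * D.β a b c
/-- the number of the heavy pairs which form a non-edge with `a` -/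
noncomputable def ν (a : V) : ℝ := ∑ d, ∑ e, D.α d e * D.β a d e
/-- the number of triangles -/
noncomputable def t : ℝ := ∑ a, ∑ b, ∑ c, D.α a b * D.α a c * D.α b c
/-- the good triangles -/
noncomputable def good (a b c : V) : ℝ := D.α a b * D.α a c * D.α b c * (1 - D.β a b c)

theorem g_nonneg : 0 ≤ D.g := sum_nonneg fun _ _ => sum_nonneg fun _ _ => D.α_nonneg _ _
theorem b_nonneg : 0 ≤ D.b := sum_nonneg fun _ _ => sum_nonneg fun _ _ => sum_nonneg fun _ _ =>
  mul_nonneg (D.α_nonneg _ _) (D.β_nonneg _ _ _)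
theorem ν_nonneg (a : V) : 0 ≤ D.ν a := sum_nonneg fun _ _ => sum_nonneg fun _ _ =>
  mul_nonneg (D.α_nonneg _ _) (D.β_nonneg _ _ _)

theorem sum_ν : ∑ a, D.ν a = D.b := by
  unfold ν b
  rw [sum_comm]
  refine sum_congr rfl fun d _ => ?_
  rw [sum_comm]
  refine sum_congr rfl fun e _ => sum_congr rfl fun a _ => ?_
  rw [D.β1 a d e, D.β2 d a e]

theorem b_le : D.b ≤ ε * (Fintype.card V : ℝ) * D.g := by
  unfold b g
  rw [mul_sum]
  refine sum_le_sum fun a _ => ?_
  rw [mul_sum]
  refine sum_le_sum fun b _ => ?_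
  rw [← mul_sum]
  rcases D.α01 a b with h | h
  · rw [h]; simp
  · rw [h, one_mul, mul_one]; exact D.heavy a b h

/-- Goodman's inequality -/
theorem goodman : 2 * D.g ^ 2 - (Fintype.card V : ℝ) ^ 2 * D.g ≤ (Fintype.card V : ℝ) * D.t := by
  set n : ℝ := (Fintype.card V : ℝ) with hn
  have hn0 : 0 ≤ n := by positivity
  have h1 : ∑ a, ∑ b, D.α a b * (∑ c, D.α a c + ∑ c, D.α b c - n) ≤ D.t := by
    unfold t
    refine sum_le_sum fun a _ => sum_le_sum fun b _ => ?_
    have h2 : ∑ c, D.α a c + ∑ c, D.α b c - n = ∑ c, (D.α a c + D.α b c - 1) := by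
      rw [sum_sub_distrib, sum_add_distrib, sum_const, card_univ, nsmul_eq_mul, mul_one]
    rw [h2, mul_sum]
    refine sum_le_sum fun c _ => ?_
    have h3 : D.α a c + D.α b c - 1 ≤ D.α a c * D.α b c := by
      nlinarith [D.α_le a c, D.α_le b c]
    calc D.α a b * (D.α a c + D.α b c - 1) ≤ D.α a b * (D.α a c * D.α b c) :=
          mul_le_mul_of_nonneg_left h3 (D.α_nonneg _ _)
      _ = _ := by ring
  have h2 : ∑ a, ∑ b, D.α a b * (∑ c, D.α a c + ∑ c, D.α b c - n) =
      2 * ∑ a, (∑ b, D.α a b) ^ 2 - n * D.g := by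
    have e1 : ∑ a, ∑ b, D.α a b * (∑ c, D.α a c + ∑ c, D.α b c - n) =
        ∑ a, ∑ b, D.α a b * (∑ c, D.α a c) + ∑ a, ∑ b, D.α a b * (∑ c, D.α b c) -
          n * D.g := by
      unfold g
      rw [mul_sum, ← sum_add_distrib, ← sum_sub_distrib]
      refine sum_congr rfl fun a _ => ?_
      rw [mul_sum, ← sum_add_distrib, ← sum_sub_distrib]
      refine sum_congr rfl fun b _ => ?_
      ring
    have e2 : ∑ a, ∑ b, D.α a b * (∑ c, D.α a c) = ∑ a, (∑ b, D.α a b) ^ 2 := by
      refine sum_congr rfl fun a _ => ?_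
      rw [← sum_mul, pow_two]
    have e3 : ∑ a, ∑ b, D.α a b * (∑ c, D.α b c) = ∑ a, (∑ b, D.α a b) ^ 2 := by
      rw [sum_comm, ← e2]
      refine sum_congr rfl fun a _ => sum_congr rfl fun b _ => ?_
      rw [D.αs b a]
    rw [e1, e2, e3]
    ring
  have h3 : D.g ^ 2 ≤ n * ∑ a, (∑ b, D.α a b) ^ 2 := by
    have := sq_sum_le_card_mul_sum_sq (s := (univ : Finset V)) (f := fun a => ∑ b, D.α a b)
    rw [card_univ] at this
    exact this
  have h4 : n * (∑ a, ∑ b, D.α a b * (∑ c, D.α a c + ∑ c, D.α b c - n)) ≤ n * D.t :=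
    mul_le_mul_of_nonneg_left h1 hn0
  rw [h2] at h4
  nlinarith

/-- the basic inequality for good triangles -/
theorem key {a b c : V} (hβ : D.β a b c = 0) (h1 : D.α a b = 1) (h2 : D.α a c = 1)
    (h3 : D.α b c = 1) :
    D.g ≤ 6 * (ε * (Fintype.card V : ℝ) ^ 2) + (D.ν a + D.ν b + D.ν c) := by
  set n : ℝ := (Fintype.card V : ℝ) with hn
  have hn0 : 0 ≤ n := by positivity
  have hp : ∀ d e, D.α d e ≤ (D.β a b d + D.β a c d + D.β b c d) +
      (D.β a b e + D.β a c e + D.β b c e) + (D.α d e * D.β a d e + D.α d e * D.β b d e +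
        D.α d e * D.β c d e) := by
    intro d e
    rcases D.α01 d e with h | h
    · rw [h]
      have := D.β_nonneg a b d
      have := D.β_nonneg a c d
      have := D.β_nonneg b c d
      have := D.β_nonneg a b e
      have := D.β_nonneg a c e
      have := D.β_nonneg b c e
      linarith
    · have := D.five a b c d e hβ h1 h2 h3 h
      rw [h]
      linarith
  have hcol : ∀ x y, D.α x y = 1 → ∑ d, ∑ _e : V, D.β x y d ≤ ε * n ^ 2 := by
    intro x y hxy
    have h4 : ∑ d, ∑ _e : V, D.β x y d = n * ∑ d, D.β x y d := by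
      rw [mul_sum]
      refine sum_congr rfl fun d _ => ?_
      rw [sum_const, card_univ, nsmul_eq_mul]
    rw [h4]
    calc n * ∑ d, D.β x y d ≤ n * (ε * n) := mul_le_mul_of_nonneg_left (D.heavy x y hxy) hn0
      _ = _ := by ring
  have hrow : ∀ x y, D.α x y = 1 → ∑ _d : V, ∑ e, D.β x y e ≤ ε * n ^ 2 := by
    intro x y hxy
    rw [sum_comm]
    exact hcol x y hxy
  have htot : D.g ≤ ∑ d, ∑ e, ((D.β a b d + D.β a c d + D.β b c d) +
      (D.β a b e + D.β a c e + D.β b c e) + (D.α d e * D.β a d e + D.α d e * D.β b d e +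
        D.α d e * D.β c d e)) := by
    unfold g
    exact sum_le_sum fun d _ => sum_le_sum fun e _ => hp d e
  refine htot.trans ?_
  simp only [sum_add_distrib]
  have c1 := hcol a b h1
  have c2 := hcol a c h2
  have c3 := hcol b c h3
  have r1 := hrow a b h1
  have r2 := hrow a c h2
  have r3 := hrow b c h3
  simp only [ν]
  linarith

theorem good_cases (a b c : V) : D.good a b c = 0 ∨
    (D.good a b c = 1 ∧ D.β a b c = 0 ∧ D.α a b = 1 ∧ D.α a c = 1 ∧ D.α b c = 1) := by
  unfold good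
  rcases D.α01 a b with h1 | h1
  · left; rw [h1]; ring
  rcases D.α01 a c with h2 | h2
  · left; rw [h2]; ring
  rcases D.α01 b c with h3 | h3
  · left; rw [h3]; ring
  rcases D.β01 a b c with h4 | h4
  · right; rw [h1, h2, h3, h4]; norm_num
  · left; rw [h4]; ring

theorem good_nonneg (a b c : V) : 0 ≤ D.good a b c := by
  rcases D.good_cases a b c with h | h
  · rw [h]
  · rw [h.1]; norm_num

/-- the number of the good triangles at `a` -/
noncomputable def G (a : V) : ℝ := ∑ b, ∑ c, D.good a b c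

theorem G_le (a : V) : D.G a ≤ D.g - D.ν a := by
  unfold G g ν
  rw [← sum_sub_distrib]
  refine sum_le_sum fun b _ => ?_
  rw [← sum_sub_distrib]
  refine sum_le_sum fun c _ => ?_
  rcases D.good_cases a b c with h | ⟨h, h1, -, -, h2⟩
  · rw [h]
    have h1 := D.α_nonneg b c
    have h2 := D.β_le a b c
    nlinarith
  · rw [h, h1, h2]; norm_num

theorem G_le' (a : V) :
    (D.g - 6 * (ε * (Fintype.card V : ℝ) ^ 2) - D.ν a) * D.G a ≤
      2 * (Fintype.card V : ℝ) * D.b := by
  set n : ℝ := (Fintype.card V : ℝ) with hn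
  have h1 : (D.g - 6 * (ε * n ^ 2) - D.ν a) * D.G a ≤ ∑ b, ∑ c, (D.ν b + D.ν c) := by
    unfold G
    rw [mul_sum]
    refine sum_le_sum fun b _ => ?_
    rw [mul_sum]
    refine sum_le_sum fun c _ => ?_
    rcases D.good_cases a b c with h | ⟨h, h1, h2, h3, h4⟩
    · rw [h]
      have := D.ν_nonneg b
      have := D.ν_nonneg c
      linarith
    · have h5 := D.key h1 h2 h3 h4
      rw [h, mul_one]
      linarith
  refine h1.trans (le_of_eq ?_)
  simp only [sum_add_distrib, sum_const, card_univ, nsmul_eq_mul]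
  rw [← mul_sum, D.sum_ν]
  ring

/-- **few good triangles** -/
theorem t_good (hε : 0 ≤ ε) (hg : 0 < D.g - 24 * (ε * (Fintype.card V : ℝ) ^ 2))
    (hnum : 18 * (ε * (Fintype.card V : ℝ) ^ 2 * D.g) ≤
      (D.g - 6 * (ε * (Fintype.card V : ℝ) ^ 2)) * (D.g - 24 * (ε * (Fintype.card V : ℝ) ^ 2))) :
    ∑ a, ∑ b, ∑ c, D.good a b c ≤ D.b := by
  set n : ℝ := (Fintype.card V : ℝ) with hn
  have hn0 : 0 ≤ n := by positivity
  set s : ℝ := D.g - 6 * (ε * n ^ 2) with hs
  have hεn : 0 ≤ ε * n ^ 2 := by positivity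
  have hs0 : 0 < s := by rw [hs]; linarith
  -- the number of good triangles at one vertex
  have hG : ∀ a, D.G a ≤ s / 3 := by
    intro a
    by_contra hc
    push Not at hc
    have h1 := D.G_le a
    have h2 := D.G_le' a
    rw [← hn, ← hs] at h2
    have h3 := D.b_le
    rw [← hn] at h3
    have h4 : (4 * s / 3 - D.g) ≤ s - D.ν a := by linarith
    have h5 : 0 < 4 * s / 3 - D.g := by rw [hs]; linarith
    have h6 : (4 * s / 3 - D.g) * (s / 3) < (s - D.ν a) * D.G a := by
      calc (4 * s / 3 - D.g) * (s / 3) < (4 * s / 3 - D.g) * D.G a :=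
            mul_lt_mul_of_pos_left hc h5
        _ ≤ _ := mul_le_mul_of_nonneg_right h4 (le_trans (by positivity) hc.le)
    have h7 : 2 * n * D.b ≤ 2 * n * (ε * n * D.g) := mul_le_mul_of_nonneg_left h3 (by positivity)
    have h8 : (4 * s / 3 - D.g) * (s / 3) = s * (D.g - 24 * (ε * n ^ 2)) / 9 := by
      rw [hs]; ring
    have h9 : 2 * n * (ε * n * D.g) = 18 * (ε * n ^ 2 * D.g) / 9 := by ring
    rw [h8] at h6
    rw [h9] at h7
    linarith
  have h1 : s * ∑ a, ∑ b, ∑ c, D.good a b c ≤ 3 * ∑ a, D.ν a * D.G a := by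
    have h2 : s * ∑ a, ∑ b, ∑ c, D.good a b c ≤
        ∑ a, ∑ b, ∑ c, D.good a b c * (D.ν a + D.ν b + D.ν c) := by
      rw [mul_sum]
      refine sum_le_sum fun a _ => ?_
      rw [mul_sum]
      refine sum_le_sum fun b _ => ?_
      rw [mul_sum]
      refine sum_le_sum fun c _ => ?_
      rcases D.good_cases a b c with h | ⟨h, h1, h2, h3, h4⟩
      · rw [h]; simp
      · have h5 := D.key h1 h2 h3 h4
        rw [h, mul_one, one_mul]
        linarith
    have gs1 : ∀ a b c, D.good a b c = D.good b a c := by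
      intro a b c
      unfold good
      rw [D.αs a b, D.β1 a b c]
      ring
    have gs2 : ∀ a b c, D.good a b c = D.good a c b := by
      intro a b c
      unfold good
      rw [D.αs b c, D.β2 a b c]
      ring
    have e1 : ∑ a, ∑ b, ∑ c, D.good a b c * D.ν a = ∑ a, D.ν a * D.G a := by
      refine sum_congr rfl fun a _ => ?_
      unfold G
      rw [mul_sum]
      refine sum_congr rfl fun b _ => ?_
      rw [mul_sum]
      exact sum_congr rfl fun c _ => mul_comm _ _
    have e2 : ∑ a, ∑ b, ∑ c, D.good a b c * D.ν b = ∑ a, D.ν a * D.G a := by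
      rw [sum_comm, ← e1]
      refine sum_congr rfl fun a _ => sum_congr rfl fun b _ => sum_congr rfl fun c _ => ?_
      rw [gs1 b a c]
    have e3 : ∑ a, ∑ b, ∑ c, D.good a b c * D.ν c = ∑ a, D.ν a * D.G a := by
      rw [← e2]
      refine sum_congr rfl fun a _ => ?_
      rw [sum_comm]
      refine sum_congr rfl fun b _ => sum_congr rfl fun c _ => ?_
      rw [gs2 a c b]
    have e4 : ∑ a, ∑ b, ∑ c, D.good a b c * (D.ν a + D.ν b + D.ν c) =
        3 * ∑ a, D.ν a * D.G a := by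
      simp only [mul_add, sum_add_distrib]
      rw [e1, e2, e3]
      ring
    rw [← e4]
    exact h2
  have h2 : 3 * ∑ a, D.ν a * D.G a ≤ s * D.b := by
    rw [← D.sum_ν, mul_sum, mul_sum]
    refine sum_le_sum fun a _ => ?_
    have := mul_le_mul_of_nonneg_left (hG a) (D.ν_nonneg a)
    linarith
  exact le_of_mul_le_mul_left (h1.trans h2) hs0

theorem t_le (hε : 0 ≤ ε) (hg : 0 < D.g - 24 * (ε * (Fintype.card V : ℝ) ^ 2))
    (hnum : 18 * (ε * (Fintype.card V : ℝ) ^ 2 * D.g) ≤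
      (D.g - 6 * (ε * (Fintype.card V : ℝ) ^ 2)) * (D.g - 24 * (ε * (Fintype.card V : ℝ) ^ 2))) :
    D.t ≤ 2 * D.b := by
  have h1 := D.t_good hε hg hnum
  have h2 : D.t ≤ ∑ a, ∑ b, ∑ c, D.good a b c + D.b := by
    unfold t b
    simp only [← sum_add_distrib]
    refine sum_le_sum fun a _ => sum_le_sum fun b _ => sum_le_sum fun c _ => ?_
    unfold good
    rcases D.α01 a b with h1 | h1
    · rw [h1]; simp
    rcases D.α01 a c with h2 | h2
    · rw [h1, h2]; have := D.β_nonneg a b c; simp [this]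
    rcases D.α01 b c with h3 | h3
    · rw [h1, h2, h3]; have := D.β_nonneg a b c; simp [this]
    · rw [h1, h2, h3]; linarith
  linarith

/-- **the main inequality** -/
theorem main (hε : 0 ≤ ε) (hε1 : ε ≤ 1 / 90) :
    D.g * (Fintype.card V : ℝ) / 2 - D.b ≤ (Fintype.card V : ℝ) ^ 3 / 4 := by
  set n : ℝ := (Fintype.card V : ℝ) with hn
  have hn0 : 0 ≤ n := by positivity
  have hb := D.b_nonneg
  rcases le_or_gt D.g (n ^ 2 / 2) with hg | hg
  · have : D.g * n ≤ n ^ 2 / 2 * n := mul_le_mul_of_nonneg_right hg hn0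
    nlinarith
  rcases hn0.eq_or_lt with h0 | hnpos
  · rw [← h0]; rw [← h0] at hg; nlinarith
  have hεn : 0 ≤ ε * n ^ 2 := by positivity
  have hεn1 : ε * n ^ 2 ≤ n ^ 2 / 90 := by nlinarith [sq_nonneg n]
  have hg1 : 0 < D.g - 24 * (ε * n ^ 2) := by linarith
  have hnum : 18 * (ε * n ^ 2 * D.g) ≤ (D.g - 6 * (ε * n ^ 2)) * (D.g - 24 * (ε * n ^ 2)) := by
    set u := ε * n ^ 2 with hu
    have h45 : 45 * u ≤ D.g := by linarith
    nlinarith [mul_nonneg hεn (show 0 ≤ D.g - 45 * u by linarith),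
      mul_nonneg (show 0 ≤ D.g - 45 * u by linarith) (show 0 ≤ D.g - 3 * u by linarith)]
  have h1 := D.t_le hε (by rw [← hn]; exact hg1) (by rw [← hn]; exact hnum)
  have h2 := D.goodman
  rw [← hn] at h2
  -- `n t ≥ g (2 g - n²) ≥ (n² / 2) (2 g - n²)`
  have h3 : n ^ 2 / 2 * (2 * D.g - n ^ 2) ≤ D.g * (2 * D.g - n ^ 2) :=
    mul_le_mul_of_nonneg_right hg.le (by linarith)
  have h4 : n * (n / 2 * (2 * D.g - n ^ 2)) ≤ n * D.t := by nlinarith
  have h5 : n / 2 * (2 * D.g - n ^ 2) ≤ D.t := le_of_mul_le_mul_left h4 hnpos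
  nlinarith

end Data

end Pool.Agent.V11262.FC
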