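import Pool.Agent.V11262.FC.Core
import Pool.Agent.V11262.TD.Norm
import Pool.Agent.V11262.TD.Five

/-!
# Heavy pairs in 3-graphs without a complete 3-graph on five vertices
-/

set_option autoImplicit false
open Finset
open scoped Classical

namespace Pool.Agent.V11262.FC

open Pool.Agent.V11262.TD

variable {n : ℕ}

theorem pair_sum (F : Finset (Fin n) → ℝ) :
    ∑ a : Fin n, ∑ b : Fin n, (if a ≠ b then F {a, b} else 0) =
      2 * ∑ U ∈ powersetCard 2 (univ : Finset (Fin n)), F U := by
  set s : Finset (Fin n × Fin n) := univ.filter fun q => q.1 ≠ q.2 with hs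
  have h1 : ∑ a : Fin n, ∑ b : Fin n, (if a ≠ b then F {a, b} else 0) =
      ∑ q ∈ s, F {q.1, q.2} := by
    rw [hs, sum_filter, Fintype.sum_prod_type]
  have h2 := sum_fiberwise_of_maps_to (s := s) (t := powersetCard 2 (univ : Finset (Fin n)))
    (g := fun q => ({q.1, q.2} : Finset (Fin n))) (by
      intro q hq
      exact mem_powersetCard.mpr ⟨subset_univ _, card_pair (mem_filter.mp hq).2⟩)
    (fun q => F {q.1, q.2})
  rw [h1, ← h2, mul_sum]
  refine sum_congr rfl fun U hU => ?_
  obtain ⟨x, y, hxy, rfl⟩ := card_eq_two.mp (mem_powersetCard.mp hU).2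
  have h3 : (s.filter fun q => ({q.1, q.2} : Finset (Fin n)) = {x, y}) = {(x, y), (y, x)} := by
    ext ⟨a, b⟩
    simp only [hs, mem_filter, mem_univ, true_and, mem_insert, mem_singleton, Prod.mk.injEq]
    constructor
    · rintro ⟨hab, h⟩
      have ha : a = x ∨ a = y := by
        have : a ∈ ({x, y} : Finset (Fin n)) := by rw [← h]; simp
        simpa using this
      have hb : b = x ∨ b = y := by
        have : b ∈ ({x, y} : Finset (Fin n)) := by rw [← h]; simp
        simpa using this
      rcases ha with rfl | rfl <;> rcases hb with rfl | rfl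
      · exact absurd rfl hab
      · left; exact ⟨rfl, rfl⟩
      · right; exact ⟨rfl, rfl⟩
      · exact absurd rfl hab
    · rintro (⟨rfl, rfl⟩ | ⟨rfl, rfl⟩)
      · exact ⟨hxy, rfl⟩
      · exact ⟨hxy.symm, pair_comm _ _⟩
  rw [h3, sum_pair (by intro h; exact hxy (Prod.mk.inj h).1)]
  simp only
  rw [pair_comm y x]
  ring

/-- the data of a 3-graph -/
noncomputable def mk (H : Finset (Finset (Fin n))) (hH : CliqueFree 3 5 H) (ε : ℝ) :
    Data (Fin n) ε where
  α a b := if a ≠ b ∧ (1 - ε) * (n : ℝ) ≤ (codegree H {a, b} : ℝ) then 1 else 0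
  β a b c := if ({a, b, c} : Finset (Fin n)) ∈ H then 0 else 1
  α01 a b := by split_ifs <;> simp
  β01 a b c := by split_ifs <;> simp
  αs a b := by
    have h : ({a, b} : Finset (Fin n)) = {b, a} := pair_comm _ _
    rw [h]
    congr 1
    exact propext ⟨fun h => ⟨h.1.symm, h.2⟩, fun h => ⟨h.1.symm, h.2⟩⟩
  β1 a b c := by
    have h : ({a, b, c} : Finset (Fin n)) = {b, a, c} := by
      ext x; simp only [mem_insert, mem_singleton]; tauto
    rw [h]
  β2 a b c := by
    have h : ({a, b, c} : Finset (Fin n)) = {a, c, b} := by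
      ext x; simp only [mem_insert, mem_singleton]; tauto
    rw [h]
  heavy a b h := by
    have h1 : a ≠ b ∧ (1 - ε) * (n : ℝ) ≤ (codegree H {a, b} : ℝ) := by
      by_contra hc; rw [if_neg hc] at h; exact zero_ne_one h
    have h2 : ∑ c : Fin n, (if ({a, b, c} : Finset (Fin n)) ∈ H then (0:ℝ) else 1) =
        n - codegree H {a, b} := by
      have h3 : ∀ c : Fin n, (if ({a, b, c} : Finset (Fin n)) ∈ H then (0:ℝ) else 1) =
          1 - (if insert c ({a, b} : Finset (Fin n)) ∈ H then 1 else 0) := by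
        intro c
        have h4 : ({a, b, c} : Finset (Fin n)) = insert c {a, b} := by
          ext x; simp only [mem_insert, mem_singleton]; tauto
        rw [h4]
        split_ifs <;> norm_num
      rw [sum_congr rfl fun c _ => h3 c, sum_sub_distrib, sum_const, card_univ,
        Fintype.card_fin, nsmul_eq_mul, mul_one]
      congr 1
      unfold codegree
      rw [card_filter]
      push_cast
      rfl
    rw [h2, Fintype.card_fin]
    linarith [h1.2]
  five a b c d e hβ h1 h2 h3 h4 := by
    by_contra hc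
    push Not at hc
    have hab : a ≠ b := by
      by_contra hcc; rw [if_neg (fun h => h.1 hcc)] at h1; exact zero_ne_one h1
    have hac : a ≠ c := by
      by_contra hcc; rw [if_neg (fun h => h.1 hcc)] at h2; exact zero_ne_one h2
    have hbc : b ≠ c := by
      by_contra hcc; rw [if_neg (fun h => h.1 hcc)] at h3; exact zero_ne_one h3
    have hde : d ≠ e := by
      by_contra hcc; rw [if_neg (fun h => h.1 hcc)] at h4; exact zero_ne_one h4
    have nn : ∀ x y z : Fin n, (0:ℝ) ≤ if ({x, y, z} : Finset (Fin n)) ∈ H then 0 else 1 := by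
      intro x y z; split_ifs <;> norm_num
    have key : ∀ x y z : Fin n, (if ({x, y, z} : Finset (Fin n)) ∈ H then (0:ℝ) else 1) < 1 →
        ({x, y, z} : Finset (Fin n)) ∈ H := by
      intro x y z h
      by_contra hcc
      rw [if_neg hcc] at h
      exact lt_irrefl _ h
    have n1 := nn a b d
    have n2 := nn a c d
    have n3 := nn b c d
    have n4 := nn a b e
    have n5 := nn a c e
    have n6 := nn b c e
    have n7 := nn a d e
    have n8 := nn b d e
    have n9 := nn c d e
    have m0 : ({a, b, c} : Finset (Fin n)) ∈ H := key _ _ _ (by rw [hβ]; norm_num)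
    have m1 := key a b d (by linarith)
    have m2 := key a c d (by linarith)
    have m3 := key b c d (by linarith)
    have m4 := key a b e (by linarith)
    have m5 := key a c e (by linarith)
    have m6 := key b c e (by linarith)
    have m7 := key a d e (by linarith)
    have m8 := key b d e (by linarith)
    have m9 := key c d e (by linarith)
    obtain ⟨-, c1, c2⟩ := ne_of_three (hH.1 _ m1)
    obtain ⟨-, c3, c4⟩ := ne_of_three (hH.1 _ m2)
    obtain ⟨-, c5, c6⟩ := ne_of_three (hH.1 _ m4)
    obtain ⟨-, c7, c8⟩ := ne_of_three (hH.1 _ m5)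
    have hK : ({a, b, c, d, e} : Finset (Fin n)).card = 5 := by
      rw [card_insert_of_notMem, card_insert_of_notMem, card_insert_of_notMem,
        card_insert_of_notMem, card_singleton]
      · simp [hde]
      · simp [c4, c8]
      · simp [hbc, c2, c6]
      · simp [hab, hac, c1, c5]
    obtain ⟨T, hT, hTc, hTH⟩ := hH.2 _ hK
    apply hTH
    set f : Fin 5 → Fin n := ![a, b, c, d, e] with hf
    have hKf : ({a, b, c, d, e} : Finset (Fin n)) = (univ : Finset (Fin 5)).image f := by
      ext x
      simp only [mem_insert, mem_singleton, mem_image, mem_univ, true_and]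
      constructor
      · rintro (rfl | rfl | rfl | rfl | rfl)
        exacts [⟨0, rfl⟩, ⟨1, rfl⟩, ⟨2, rfl⟩, ⟨3, rfl⟩, ⟨4, rfl⟩]
      · rintro ⟨i, rfl⟩
        fin_cases i <;> simp [hf]
    rw [hKf] at hT hK
    have hinj : Set.InjOn f ((univ : Finset (Fin 5)) : Set (Fin 5)) := by
      apply card_image_iff.mp
      rw [hK]
      rfl
    obtain ⟨S, hS, rfl⟩ := subset_image_iff.mp hT
    have hSc : S.card = 3 := by
      rw [← hTc]
      exact (card_image_of_injOn (hinj.mono (by simp))).symm
    have hSm : S ∈ powersetCard 3 (univ : Finset (Fin 5)) :=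
      mem_powersetCard.mpr ⟨subset_univ _, hSc⟩
    have hlist : powersetCard 3 (univ : Finset (Fin 5)) =
        {{0, 1, 2}, {0, 1, 3}, {0, 1, 4}, {0, 2, 3}, {0, 2, 4}, {0, 3, 4}, {1, 2, 3}, {1, 2, 4},
          {1, 3, 4}, {2, 3, 4}} := by decide
    rw [hlist] at hSm
    simp only [mem_insert, mem_singleton] at hSm
    rcases hSm with rfl | rfl | rfl | rfl | rfl | rfl | rfl | rfl | rfl | rfl
    · simpa [hf] using m0
    · simpa [hf] using m1
    · simpa [hf] using m4
    · simpa [hf] using m2
    · simpa [hf] using m5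
    · simpa [hf] using m7
    · simpa [hf] using m3
    · simpa [hf] using m6
    · simpa [hf] using m8
    · simpa [hf] using m9

/-- **heavy pairs** -/
theorem heavy_pairs {H : Finset (Finset (Fin n))} (hH : CliqueFree 3 5 H) {ε : ℝ} (hε : 0 ≤ ε)
    (hε1 : ε ≤ 1 / 90) :
    ∑ U ∈ (powersetCard 2 (univ : Finset (Fin n))).filter
      (fun U => (1 - ε) * (n : ℝ) ≤ (codegree H U : ℝ)), ((codegree H U : ℝ) - n / 2) ≤
        (n : ℝ) ^ 3 / 8 := by
  set D := mk H hH ε with hD
  have h1 := D.main hε hε1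
  rw [Fintype.card_fin] at h1
  have hβ : ∀ a b : Fin n, ∑ c, D.β a b c = n - codegree H {a, b} := by
    intro a b
    have h3 : ∀ c : Fin n, D.β a b c =
        1 - (if insert c ({a, b} : Finset (Fin n)) ∈ H then 1 else 0) := by
      intro c
      have h4 : ({a, b, c} : Finset (Fin n)) = insert c {a, b} := by
        ext x; simp only [mem_insert, mem_singleton]; tauto
      show (if ({a, b, c} : Finset (Fin n)) ∈ H then (0:ℝ) else 1) = _
      rw [h4]
      split_ifs <;> norm_num
    rw [sum_congr rfl fun c _ => h3 c, sum_sub_distrib, sum_const, card_univ,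
      Fintype.card_fin, nsmul_eq_mul, mul_one]
    congr 1
    unfold codegree
    rw [card_filter]
    push_cast
    rfl
  let F : Finset (Fin n) → ℝ := fun U => if (1 - ε) * (n : ℝ) ≤ (codegree H U : ℝ) then
    ((codegree H U : ℝ) - n / 2) else 0
  have h2 : D.g * (n : ℝ) / 2 - D.b = ∑ a : Fin n, ∑ b : Fin n,
      (if a ≠ b then F {a, b} else 0) := by
    unfold Data.g Data.b
    rw [sum_mul, sum_div, ← sum_sub_distrib]
    refine sum_congr rfl fun a _ => ?_
    rw [sum_mul, sum_div, ← sum_sub_distrib]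
    refine sum_congr rfl fun b _ => ?_
    rw [← mul_sum, hβ a b]
    show (if a ≠ b ∧ (1 - ε) * (n : ℝ) ≤ (codegree H {a, b} : ℝ) then (1:ℝ) else 0) * n / 2 -
      (if a ≠ b ∧ (1 - ε) * (n : ℝ) ≤ (codegree H {a, b} : ℝ) then (1:ℝ) else 0) *
        (n - codegree H {a, b}) = _
    by_cases hab : a ≠ b
    · by_cases hc : (1 - ε) * (n : ℝ) ≤ (codegree H {a, b} : ℝ)
      · rw [if_pos ⟨hab, hc⟩, if_pos hab, show F {a, b} = (codegree H {a, b} : ℝ) - n / 2 from
          if_pos hc]
        ring
      · rw [if_neg (fun h => hc h.2), if_pos hab, show F {a, b} = 0 from if_neg hc]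
        ring
    · rw [if_neg (fun h => hab h.1), if_neg hab]; ring
  rw [h2, pair_sum F] at h1
  rw [sum_filter]
  linarith

/-- **the number of edges** -/
theorem edges {H : Finset (Finset (Fin n))} (hH : CliqueFree 3 5 H) {ε : ℝ} (hε : 0 ≤ ε)
    (hε1 : ε ≤ 1 / 90) :
    (H.card : ℝ) ≤ (n : ℝ) ^ 3 / 8 + (1 / 3) *
      ∑ U ∈ (powersetCard 2 (univ : Finset (Fin n))).filter
        (fun U => (n : ℝ) / 2 < (codegree H U : ℝ) ∧ (codegree H U : ℝ) < (1 - ε) * (n : ℝ)),
          ((codegree H U : ℝ) - n / 2) := by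
  have h1 := heavy_pairs hH hε hε1
  have h2 := sum_codegree (s := 2) hH.1
  have h3 : (∑ U ∈ powersetCard 2 (univ : Finset (Fin n)), (codegree H U : ℝ)) = 3 * H.card := by
    have : ((∑ U ∈ powersetCard 2 (univ : Finset (Fin n)), codegree H U : ℕ) : ℝ) =
        (((2 + 1) * H.card : ℕ) : ℝ) := by rw [h2]
    push_cast at this
    rw [this]
  have h4 : ∑ U ∈ powersetCard 2 (univ : Finset (Fin n)), ((codegree H U : ℝ) - n / 2) ≤
      ∑ U ∈ (powersetCard 2 (univ : Finset (Fin n))).filter
        (fun U => (1 - ε) * (n : ℝ) ≤ (codegree H U : ℝ)), ((codegree H U : ℝ) - n / 2) +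
      ∑ U ∈ (powersetCard 2 (univ : Finset (Fin n))).filter
        (fun U => (n : ℝ) / 2 < (codegree H U : ℝ) ∧ (codegree H U : ℝ) < (1 - ε) * (n : ℝ)),
          ((codegree H U : ℝ) - n / 2) := by
    rw [sum_filter, sum_filter, ← sum_add_distrib]
    refine sum_le_sum fun U _ => ?_
    have hn0 : (0:ℝ) ≤ n := by positivity
    by_cases b1 : (1 - ε) * (n : ℝ) ≤ (codegree H U : ℝ)
    · rw [if_pos b1, if_neg (fun h => absurd h.2 (not_lt.mpr b1)), add_zero]
    · rw [if_neg b1]
      by_cases b2 : (n : ℝ) / 2 < (codegree H U : ℝ)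
      · rw [if_pos ⟨b2, not_le.mp b1⟩]; linarith
      · rw [if_neg (fun h => b2 h.1)]; linarith
  have h5 : ∑ U ∈ powersetCard 2 (univ : Finset (Fin n)), ((codegree H U : ℝ) - n / 2) =
      3 * H.card - n.choose 2 * (n / 2) := by
    rw [sum_sub_distrib, h3, sum_const, card_ps, nsmul_eq_mul]
  have h6 : (n.choose 2 : ℝ) ≤ (n : ℝ) ^ 2 / 2 := by
    have := Nat.choose_le_pow_div (α := ℝ) 2 n
    simpa using this
  have h7 : (n.choose 2 : ℝ) * (n / 2) ≤ (n : ℝ) ^ 2 / 2 * (n / 2) :=
    mul_le_mul_of_nonneg_right h6 (by positivity)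
  rw [h5] at h4
  nlinarith

end Pool.Agent.V11262.FC
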